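import Pool.Agent.W394.BQN.Stm2

set_option autoImplicit false

open Polynomial

noncomputable section

namespace Pool.Agent.W866.BQN

open BQ Pool.Agent.W394.BQN

theorem t_SLA (h : S_GL) : S_SLA := by
  intro C _ u v n q hq hv
  let cA : C →+* Semi C (u * v) n := (Q.pr C (u * v) n).comp MvPolynomial.C
  let cB : C →+* Semi C u n := (Q.pr C u n).comp MvPolynomial.C
  let xA : Fin (n + 1) → Semi C (u * v) n := fun i => Q.pr C (u * v) n (MvPolynomial.X i)
  let xB : Fin (n + 1) → Semi C u n := fun i => Q.pr C u n (MvPolynomial.X i)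
  have prodA : ∏ i, xA i = cA (u * v) := Q.pr_prod C (u * v) n
  have prodB : ∏ i, xB i = cB u := Q.pr_prod C u n
  let a : Fin (n + 1) → Semi C u n := Fin.cases (cB v * xB 0) (fun i => xB i.succ)
  have a0 : a 0 = cB v * xB 0 := by simp [a]
  have as : ∀ i : Fin n, a i.succ = xB i.succ := by intro i; simp [a]
  have ha : ∏ i, a i = cB (u * v) := by
    rw [Fin.prod_univ_succ, a0]
    simp only [as]
    have hp : xB 0 * ∏ i : Fin n, xB i.succ = cB u := by
      rw [← prodB]; exact (Fin.prod_univ_succ xB).symm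
    calc cB v * xB 0 * ∏ i : Fin n, xB i.succ = cB v * (xB 0 * ∏ i : Fin n, xB i.succ) :=
          mul_assoc _ _ _
      _ = cB v * cB u := by rw [hp]
      _ = cB (u * v) := by rw [← map_mul, mul_comm]
  let ψ : Semi C (u * v) n →+* Semi C u n := Q.lft C (u * v) n cB a ha
  have ψC : ∀ c, ψ (cA c) = cB c := fun c => Q.lft_C C (u * v) n cB a ha c
  have ψX : ∀ i, ψ (xA i) = a i := fun i => Q.lft_X C (u * v) n cB a ha i
  -- the localisation
  let L := Localization.Away (cA v)
  let al : Semi C (u * v) n →+* L := algebraMap _ _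
  let w : L := IsLocalization.Away.invSelf (cA v)
  have hw : al (cA v) * w = 1 := IsLocalization.Away.mul_invSelf (cA v)
  let b : Fin (n + 1) → L := Fin.cases (w * al (xA 0)) (fun i => al (xA i.succ))
  have b0 : b 0 = w * al (xA 0) := by simp [b]
  have bs : ∀ i : Fin n, b i.succ = al (xA i.succ) := by intro i; simp [b]
  have hb : ∏ i, b i = (al.comp cA) u := by
    rw [Fin.prod_univ_succ, b0]
    simp only [bs]
    have hp : xA 0 * ∏ i : Fin n, xA i.succ = cA (u * v) := by
      rw [← prodA]; exact (Fin.prod_univ_succ xA).symm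
    have hp2 : al (xA 0) * ∏ i : Fin n, al (xA i.succ) = al (cA u) * al (cA v) := by
      have e1 : cA (u * v) = cA u * cA v := map_mul cA u v
      rw [← map_prod, ← map_mul, hp, e1, map_mul al]
    calc w * al (xA 0) * ∏ i : Fin n, al (xA i.succ)
        = w * (al (xA 0) * ∏ i : Fin n, al (xA i.succ)) := mul_assoc _ _ _
      _ = w * (al (cA u) * al (cA v)) := by rw [hp2]
      _ = al (cA u) * (al (cA v) * w) := by ring
      _ = al (cA u) := by rw [hw, mul_one]
      _ = _ := rfl
  let θ : Semi C u n →+* L := Q.lft C u n (al.comp cA) b hb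
  have θC : ∀ c, θ (cB c) = al (cA c) := fun c => Q.lft_C C u n (al.comp cA) b hb c
  have θX : ∀ i, θ (xB i) = b i := fun i => Q.lft_X C u n (al.comp cA) b hb i
  have hθψ : θ.comp ψ = al := by
    apply Q.hext
    · intro c
      show θ (ψ (cA c)) = al (cA c)
      rw [ψC, θC]
    · intro i
      show θ (ψ (xA i)) = al (xA i)
      rw [ψX]
      refine Fin.cases ?_ (fun k => ?_) i
      · rw [a0, map_mul, θC, θX, b0, ← mul_assoc, hw, one_mul]
      · rw [as, θX, bs]
  obtain ⟨-, h2⟩ := h (Semi C (u * v) n) (Semi C u n) ψ (Submonoid.powers (cA v))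
    (by
      intro x hx
      have h0 : al x = 0 := by
        rw [← hθψ]
        show θ (ψ x) = 0
        rw [hx, map_zero]
      obtain ⟨m, hm⟩ := (IsLocalization.map_eq_zero_iff (Submonoid.powers (cA v)) L x).1 h0
      exact ⟨m, m.2, hm⟩)
    (by
      intro y
      obtain ⟨p, rfl⟩ := Ideal.Quotient.mk_surjective y
      show ∃ m ∈ Submonoid.powers (cA v), ∃ a', ψ m * Q.pr C u n p = ψ a'
      induction p using MvPolynomial.induction_on with
      | C c =>
        refine ⟨1, Submonoid.one_mem _, cA c, ?_⟩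
        rw [map_one, one_mul, ψC]
        rfl
      | add p p' hp hp' =>
        obtain ⟨m, hm, a1, h1⟩ := hp
        obtain ⟨m', hm', a2, h2⟩ := hp'
        refine ⟨m * m', Submonoid.mul_mem _ hm hm', m' * a1 + m * a2, ?_⟩
        have e1 : Q.pr C u n (p + p') = Q.pr C u n p + Q.pr C u n p' := map_add _ _ _
        have e2 : ψ (m * m') = ψ m * ψ m' := map_mul ψ _ _
        have e3 : ψ (m' * a1 + m * a2) = ψ m' * ψ a1 + ψ m * ψ a2 := by
          rw [map_add ψ, map_mul ψ, map_mul ψ]
        rw [e1, e2, e3, ← h1, ← h2]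
        ring
      | mul_X p i hp =>
        obtain ⟨m, hm, a1, h1⟩ := hp
        have hx : ∃ z, ψ z = cB v * xB i := by
          refine Fin.cases ?_ (fun k => ?_) i
          · exact ⟨xA 0, by rw [ψX, a0]⟩
          · exact ⟨cA v * xA k.succ, by rw [map_mul, ψC, ψX, as]⟩
        obtain ⟨z, hz⟩ := hx
        refine ⟨m * cA v, Submonoid.mul_mem _ hm (Submonoid.mem_powers _), a1 * z, ?_⟩
        have e1 : Q.pr C u n (p * MvPolynomial.X i) = Q.pr C u n p * xB i := map_mul _ _ _
        have e2 : ψ (m * cA v) = ψ m * cB v := by rw [map_mul ψ, ψC]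
        have e3 : ψ (a1 * z) = ψ m * Q.pr C u n p * (cB v * xB i) := by
          rw [map_mul ψ, hz, h1]
        rw [e1, e2, e3]
        ring)
  obtain ⟨q', hq', -, he⟩ := h2 q (by
    rintro m ⟨k, rfl⟩ hmq
    exact hv (hq.mem_of_pow_mem k hmq))
  exact ⟨q', hq', he⟩

end Pool.Agent.W866.BQN
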